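import Pool.Agent.R684.VG.Stm
import Pool.Agent.R684.PN.Injc
import Pool.Agent.R928.PNCLO

set_option autoImplicit false

/-!
# Trace formula at finite level (piece VG-TR, MP_a85771_al)
-/

open scoped InnerProductSpace InnerProduct ENNReal

namespace Pool.Agent.R372.VG.TR

open Pool.Agent.W649.ZL Pool.Agent.R684.PN Pool.Agent.R684.VG

theorem ZZ_one {Γ Q : Type} [Group Γ] [Group Q] (q : Γ →* Q) (c : Γ → Q → ℂ) (hc : c ∈ ZZ q)
    (x : Q) : c 1 x = 0 := by
  have h := hc 1 1 x
  simp only [mul_one, map_one, inv_one, one_mul] at h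
  simpa using h

theorem ZZ_word {Γ Q S : Type} [Group Γ] [Group Q] (σ : S → Γ) (q : Γ →* Q) (c : Γ → Q → ℂ)
    (hc : c ∈ ZZ q) (L : List S) : ∀ x : Q,
    DD (fun s => q (σ s)) L (fun y => c (σ y.2) y.1) x = c (L.map σ).prod x := by
  induction L with
  | nil => intro x; simp [DD, ZZ_one q c hc]
  | cons s L ih =>
    intro x
    simp only [DD, ih, List.map_cons, List.prod_cons]
    rw [hc]

/-- the linear map from derivations to cocycles -/
noncomputable def ev {Γ Q S : Type} [Group Γ] [Group Q] [Finite Q] [Finite S] (σ : S → Γ)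
    (q : Γ →* Q) : ZZ q →ₗ[ℂ] UU σ q ∅ where
  toFun c := ⟨⟨fun y => c.1 (σ y.2) y.1, Memℓp.all _⟩, by
    rw [mem_UU]
    refine ⟨fun L L' h x => ?_, fun L hL => absurd hL (Set.notMem_empty L)⟩
    change DD (fun s => q (σ s)) L (fun y => c.1 (σ y.2) y.1) x =
      DD (fun s => q (σ s)) L' (fun y => c.1 (σ y.2) y.1) x
    rw [ZZ_word σ q c.1 c.2, ZZ_word σ q c.1 c.2, h]⟩
  map_add' c d := by
    apply Subtype.ext
    ext y
    rfl
  map_smul' a c := by
    apply Subtype.ext
    ext y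
    rfl

theorem ev_apply {Γ Q S : Type} [Group Γ] [Group Q] [Finite Q] [Finite S] (σ : S → Γ)
    (q : Γ →* Q) (c : ZZ q) (x : Q) (s : S) : (ev σ q c).1 (x, s) = c.1 (σ s) x := rfl

theorem ev_bij {Γ Q S : Type} [Group Γ] [Group Q] [Finite Q] [Finite S] (σ : S → Γ)
    (hσ : Gen σ) (q : Γ →* Q) : Function.Bijective (ev σ q) := by
  constructor
  · rw [← LinearMap.ker_eq_bot, LinearMap.ker_eq_bot']
    intro c hc
    apply Subtype.ext
    funext g x
    obtain ⟨L, rfl⟩ := hσ g
    rw [← ZZ_word σ q c.1 c.2 L x]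
    have h : (fun y : Q × S => c.1 (σ y.2) y.1) = 0 := by
      funext y
      have := ev_apply σ q c y.1 y.2
      rw [hc] at this
      rw [← this]
      rfl
    rw [h, DD_zero]
    rfl
  · intro f
    choose W hW using hσ
    have hf := (mem_UU σ q ∅ f.1).1 f.2
    have hDD : ∀ (g : Γ) (L : List S), (L.map σ).prod = g → ∀ x,
        DD (fun s => q (σ s)) (W g) f.1 x = DD (fun s => q (σ s)) L f.1 x := by
      intro g L hL x
      exact hf.1 _ _ (by rw [hW, hL]) x
    refine ⟨⟨fun g x => DD (fun s => q (σ s)) (W g) f.1 x, ?_⟩, ?_⟩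
    · intro g h x
      have e : ((W g ++ W h).map σ).prod = g * h := by
        rw [List.map_append, List.prod_append, hW, hW]
      change DD (fun s => q (σ s)) (W (g * h)) f.1 x = DD (fun s => q (σ s)) (W g) f.1 x +
        DD (fun s => q (σ s)) (W h) f.1 ((q g)⁻¹ * x)
      rw [hDD _ _ e, DD_append]
      have e2 : ((W g).map fun s => q (σ s)).prod = q g := by
        conv_rhs => rw [← hW g]
        rw [map_list_prod, List.map_map]
        rfl
      rw [e2]
    · apply Subtype.ext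
      ext ⟨x, s⟩
      rw [ev_apply]
      change DD (fun s => q (σ s)) (W (σ s)) f.1 x = f.1 (x, s)
      rw [hDD (σ s) [s] (by simp)]
      simp [DD]

theorem nsq {X : Type} (f : lp (fun _ : X => ℂ) 2) : ‖f‖ ^ 2 = ∑' x, ‖f x‖ ^ 2 := by
  have h := lp.norm_rpow_eq_tsum (p := 2) (by norm_num) f
  simpa using h

theorem fin_dim {Q S : Type} [Finite Q] [Finite S] : FiniteDimensional ℂ (EE Q S) := by
  haveI := Fintype.ofFinite (Q × S)
  let φ : EE Q S →ₗ[ℂ] (Q × S → ℂ) :=
    { toFun := fun f => f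
      map_add' := fun f g => rfl
      map_smul' := fun a f => rfl }
  have hφ : Function.Injective φ := by
    intro f g h
    exact lp.ext h
  exact FiniteDimensional.of_injective φ hφ

theorem sum_proj {Q S : Type} [Group Q] [Fintype Q] [Fintype S] (U : Submodule ℂ (EE Q S))
    [FiniteDimensional ℂ U] [U.HasOrthogonalProjection] :
    ∑ y : Q × S, ‖U.starProjection (dl y)‖ ^ 2 = Module.finrank ℂ U := by
  classical
  let b := stdOrthonormalBasis ℂ U
  have h1 : ∀ y : Q × S, ‖U.starProjection (dl y)‖ ^ 2 = ∑ i, ‖(b i : EE Q S) y‖ ^ 2 := by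
    intro y
    have e1 : ‖U.starProjection (dl y)‖ = ‖U.orthogonalProjection (dl y)‖ := rfl
    rw [e1, ← b.sum_sq_norm_inner_right]
    refine Finset.sum_congr rfl fun i _ => ?_
    congr 1
    have e2 : ⟪b i, U.orthogonalProjection (dl y)⟫_ℂ = ⟪(b i : EE Q S), dl y⟫_ℂ := by
      have h0 : ⟪dl y - U.starProjection (dl y), (b i : EE Q S)⟫_ℂ = 0 :=
        Submodule.starProjection_inner_eq_zero _ _ (b i).2
      rw [inner_sub_left, sub_eq_zero] at h0
      have h0' := congrArg (starRingEnd ℂ) h0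
      rw [inner_conj_symm, inner_conj_symm] at h0'
      rw [h0']
      rfl
    rw [e2, inner_dl_right, RCLike.norm_conj]
  simp only [h1]
  rw [Finset.sum_comm]
  have h2 : ∀ i, ∑ y : Q × S, ‖(b i : EE Q S) y‖ ^ 2 = 1 := by
    intro i
    have h3 := nsq (b i : EE Q S)
    rw [tsum_fintype] at h3
    have h4 : ‖(b i : EE Q S)‖ = 1 := b.orthonormal.1 i
    rw [← h3, h4, one_pow]
  simp only [h2]
  simp

theorem t_TR : S_TR := by
  classical
  intro Γ Q S _ _ _ _ σ hσ q
  haveI := Fintype.ofFinite Q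
  obtain ⟨hcl, hinv⟩ := Pool.Agent.R928.PNCLO.t_CLO Γ Q S σ q ∅
  set U : Submodule ℂ (EE Q S) := UU σ q ∅ with hU
  haveI : CompleteSpace U := hcl.completeSpace_coe
  haveI : FiniteDimensional ℂ (EE Q S) := fin_dim
  have h1 : Module.finrank ℂ (ZZ q) = Module.finrank ℂ U :=
    (LinearEquiv.ofBijective (ev σ q) (ev_bij σ hσ q)).finrank_eq
  rw [h1, ← sum_proj U, vd_eq U U (topcl_eq hcl), Fintype.sum_prod_type]
  have h2 : ∀ (x : Q) (s : S), ‖U.starProjection (dl (x, s))‖ ^ 2 =
      ‖U.starProjection (dl ((1 : Q), s))‖ ^ 2 := by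
    intro x s
    have e : (dl (x, s) : EE Q S) = tr x⁻¹ (dl ((1 : Q), s)) := by
      rw [tr_dl, one_mul, inv_inv]
    rw [e, proj_tr hinv, norm_tr]
  simp only [h2]
  rw [Finset.sum_const, Finset.card_univ, nsmul_eq_mul, Nat.card_eq_fintype_card, mul_comm]

end Pool.Agent.R372.VG.TR
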