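import Pool.Agent.R684.VG.Stm
import Pool.Agent.R787.PNOP

set_option autoImplicit false

/-!
# The coboundaries have dimension at most one (piece VG-BB, MP_a85771_al)
-/

open scoped InnerProductSpace InnerProduct ENNReal

namespace Pool.Agent.R372.VG.BB'

open Pool.Agent.W649.ZL Pool.Agent.R684.PN Pool.Agent.R684.VG Pool.Agent.R787.PNOP

variable {Γ S : Type} [Group Γ]

theorem inj1 (g : Γ) : Function.Injective (fun x : Γ => ((g * x, ()) : Γ × Unit)) := by
  intro a b hab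
  simpa using hab

/-- the coboundary operator -/
noncomputable def TT [Fintype S] [DecidableEq S] (σ : S → Γ) : EE Γ Unit →L[ℂ] EE Γ S :=
  ∑ s, (pull (fun x : Γ => (((σ s)⁻¹ * x, ()) : Γ × Unit)) (inj1 (σ s)⁻¹) s
    - pull (fun x : Γ => ((1 * x, ()) : Γ × Unit)) (inj1 1) s)

theorem TT_apply [Fintype S] [DecidableEq S] (σ : S → Γ) (u : EE Γ Unit) (x : Γ) (s : S) :
    TT σ u (x, s) = u ((σ s)⁻¹ * x, ()) - u (x, ()) := by
  unfold TT
  have e1 : (∑ i, (pull (fun x : Γ => (((σ i)⁻¹ * x, ()) : Γ × Unit)) (inj1 (σ i)⁻¹) i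
      - pull (fun x : Γ => ((1 * x, ()) : Γ × Unit)) (inj1 1) i)) u (x, s) =
      ∑ i, (pull (fun x : Γ => (((σ i)⁻¹ * x, ()) : Γ × Unit)) (inj1 (σ i)⁻¹) i u (x, s)
      - pull (fun x : Γ => ((1 * x, ()) : Γ × Unit)) (inj1 1) i u (x, s)) := by
    rw [ContinuousLinearMap.sum_apply, lp.coeFn_sum, Finset.sum_apply]
    rfl
  rw [e1, Finset.sum_eq_single s]
  · rw [pull_apply, pull_apply]
    simp
  · intro i _ hi
    rw [pull_apply, pull_apply]
    simp [Ne.symm hi]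
  · intro h
    exact absurd (Finset.mem_univ s) h

theorem t_BB : S_BB := by
  classical
  intro Γ S _ _ σ
  have hE : Eqv (TT σ) := by
    intro k f
    ext ⟨x, s⟩
    rw [TT_apply, tr_apply, tr_apply, tr_apply, TT_apply]
    simp only [mul_assoc]
  have hI : Pool.Agent.W649.ZL.Inv (⊤ : Submodule ℂ (EE Γ Unit)) := fun _ _ _ => trivial
  have hc : IsClosed ((⊤ : Submodule ℂ (EE Γ Unit)) : Set (EE Γ Unit)) := by simp
  have h := rank_nullity (TT σ) hE hI hc
  have e : (⊤ : Submodule ℂ (EE Γ Unit)).map (TT σ : EE Γ Unit →ₗ[ℂ] EE Γ S) = BB σ := by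
    ext f
    constructor
    · rintro ⟨u, -, rfl⟩
      exact ⟨u, fun x s => TT_apply σ u x s⟩
    · rintro ⟨u, hu⟩
      refine ⟨u, trivial, ?_⟩
      ext ⟨x, s⟩
      change TT σ u (x, s) = f (x, s)
      rw [TT_apply, hu]
  rw [e, vd_top, Fintype.card_unit] at h
  have h2 := vd_nonneg ((⊤ : Submodule ℂ (EE Γ Unit)) ⊓ LinearMap.ker (TT σ : EE Γ Unit →ₗ[ℂ] EE Γ S))
  push_cast at h
  linarith

end Pool.Agent.R372.VG.BB'
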